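import Pool.Agent.Mg.F760060a.G86369e

namespace Pool.Agent.Results.MP_760060_nt.Disproof

open Pool.Agent.MP_760060_nt

theorem result : Filter.Tendsto (fun N : ℕ =>
    ((T ∩ Set.Icc 1 N).ncard : ℝ) / (S ∩ Set.Icc 1 N).ncard) Filter.atTop (nhds 0) :=
  W.fin W.allNW

end Pool.Agent.Results.MP_760060_nt.Disproof
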